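import Mathlib

set_option autoImplicit false

namespace Pool.Agent.Results.MP_7555fa_al.PGL

/-- left-normed commutator of u with the entries of l -/
def comm {G : Type*} [Group G] (u : G) (l : List G) : G :=
  l.foldl (fun a b => a⁻¹ * b⁻¹ * a * b) u

abbrev P : Type := Equiv.Perm (Fin 8)

def x : P := ⟨![1, 2, 3, 4, 5, 6, 7, 0], ![7, 0, 1, 2, 3, 4, 5, 6], by decide, by decide⟩
def t : P := ⟨![2, 5, 0, 6, 7, 1, 3, 4], ![2, 5, 0, 6, 7, 1, 3, 4], by decide, by decide⟩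
def s : P := ⟨![0, 7, 6, 5, 4, 3, 2, 1], ![0, 7, 6, 5, 4, 3, 2, 1], by decide, by decide⟩
def r : Fin 7 → P := ![1, s, t, t * x * x * t, t * x * x * x * t, t * x * t, t * x * t * x * t]

def tab : Fin 8 → Fin 7 → ℕ × Fin 7 × ℕ :=
  ![![(0, 2, 0), (7, 5, 1), (0, 0, 0), (2, 2, 0), (3, 2, 0), (1, 2, 0), (1, 5, 0)],
    ![(0, 2, 1), (7, 5, 0), (0, 5, 0), (2, 4, 4), (4, 5, 3), (0, 6, 0), (6, 4, 6)],
    ![(0, 2, 2), (7, 5, 7), (0, 3, 0), (2, 6, 2), (1, 3, 4), (4, 4, 2), (2, 3, 6)],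
    ![(0, 2, 3), (7, 5, 6), (0, 4, 0), (4, 3, 1), (6, 3, 6), (3, 5, 4), (4, 6, 7)],
    ![(0, 2, 4), (7, 5, 5), (4, 2, 4), (3, 3, 7), (2, 5, 6), (1, 4, 5), (3, 6, 1)],
    ![(0, 2, 5), (7, 5, 4), (5, 4, 5), (5, 6, 6), (5, 2, 3), (7, 6, 1), (5, 3, 2)],
    ![(0, 2, 6), (7, 5, 3), (7, 3, 7), (3, 4, 2), (1, 6, 2), (7, 2, 2), (7, 4, 0)],
    ![(0, 2, 7), (7, 5, 2), (6, 5, 6), (6, 2, 1), (6, 6, 0), (0, 1, 7), (5, 5, 7)]]

lemma htab : ∀ (i : Fin 8) (c : Fin 7), t * x ^ (i : ℕ) * r c =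
    x ^ (tab i c).1 * r (tab i c).2.1 * x ^ (tab i c).2.2 := by decide +kernel

lemma x8 : x ^ 8 = 1 := by decide +kernel

lemma xmod (i : ℕ) : x ^ i = x ^ ((⟨i % 8, Nat.mod_lt _ (by decide)⟩ : Fin 8) : ℕ) :=
  pow_eq_pow_mod i x8

def G : Subgroup P := Subgroup.closure {x, t}

lemma cover : ∀ g ∈ G, ∃ (i j : ℕ) (c : Fin 7), g = x ^ i * r c * x ^ j := by
  have hx : ∀ (n : ℕ) (g : P), (∃ (i j : ℕ) (c : Fin 7), g = x ^ i * r c * x ^ j) →
      ∃ (i j : ℕ) (c : Fin 7), x ^ n * g = x ^ i * r c * x ^ j := by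
    rintro n _ ⟨i, j, c, rfl⟩
    exact ⟨n + i, j, c, by simp only [pow_add, mul_assoc]⟩
  have ht : ∀ g : P, (∃ (i j : ℕ) (c : Fin 7), g = x ^ i * r c * x ^ j) →
      ∃ (i j : ℕ) (c : Fin 7), t * g = x ^ i * r c * x ^ j := by
    rintro _ ⟨i, j, c, rfl⟩
    obtain ⟨i', hi⟩ : ∃ i' : Fin 8, x ^ i = x ^ (i' : ℕ) := ⟨_, xmod i⟩
    exact ⟨(tab i' c).1, (tab i' c).2.2 + j, (tab i' c).2.1,
      by rw [← mul_assoc, ← mul_assoc, hi, htab, mul_assoc, ← pow_add]⟩
  intro g hg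
  induction hg using Subgroup.closure_induction_left with
  | one => exact ⟨0, 0, 0, by decide +kernel⟩
  | mul_left a ha y _ ih =>
    rcases ha with rfl | rfl
    · simpa using hx 1 y ih
    · exact ht y ih
  | inv_mul_cancel a ha y _ ih =>
    rcases ha with rfl | rfl
    · rw [show x⁻¹ = x ^ 7 by decide +kernel]; exact hx 7 y ih
    · rw [show t⁻¹ = t by decide +kernel]; exact ht y ih

lemma nonsol (K : Subgroup P) (hx : x ∈ K) (ht : t ∈ K) : ¬ Group.IsSolvable K := by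
  refine not_isSolvable_of_mem_derivedSeries (G := K) (g := ⟨t, ht⟩)
    (fun h => absurd (congrArg Subtype.val h) (by decide +kernel : t ≠ 1)) fun n => ?_
  induction n with
  | zero => trivial
  | succ n ih =>
    have h := Subgroup.commutator_mem_commutator
      ((derivedSeries_normal K n).conj_mem _ ih (⟨x, hx⟩ ^ 3))
      ((derivedSeries_normal K n).conj_mem _ ih (⟨x, hx⟩ ^ 5))
    rw [derivedSeries_succ]
    convert h using 1
    rw [commutatorElement_def]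
    have e : t = (x ^ 3 * t * (x ^ 3)⁻¹) * (x ^ 5 * t * (x ^ 5)⁻¹) * (x ^ 3 * t * (x ^ 3)⁻¹)⁻¹ *
      (x ^ 5 * t * (x ^ 5)⁻¹)⁻¹ := by decide +kernel
    exact Subtype.ext e

def d (i : Fin 8) (e : Bool) : P := x ^ (i : ℕ) * if e then s else 1

lemma sol {y : P} (hy : y ∈ G) (h : Group.IsSolvable (Subgroup.closure {x, y})) :
    ∃ i e, y = d i e := by
  obtain ⟨i, j, c, rfl⟩ := cover y hy
  set K := Subgroup.closure {x, x ^ i * r c * x ^ j}
  have hx : x ∈ K := Subgroup.subset_closure (by simp)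
  have hr : r c ∈ K := by
    have : x ^ i * r c * x ^ j ∈ K := Subgroup.subset_closure (by simp)
    rwa [K.mul_mem_cancel_right (K.pow_mem hx j), K.mul_mem_cancel_left (K.pow_mem hx i)] at this
  have p := fun n : ℕ => K.pow_mem hx n
  have hd : ∀ (i j : Fin 8) (e : Bool), ∃ k, d i e * x ^ (j : ℕ) = d k e := by decide +kernel
  fin_cases c
  · obtain ⟨k, hk⟩ := hd _ _ false
    exact ⟨k, false, by rw [xmod i, xmod j]; exact hk⟩
  · obtain ⟨k, hk⟩ := hd _ _ true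
    exact ⟨k, true, by rw [xmod i, xmod j]; exact hk⟩
  · exact absurd h (nonsol K hx hr)
  · refine absurd h (nonsol K hx ?_)
    rw [show t = r 3 * r 3 * x ^ 4 * r 3 * r 3 by decide +kernel]
    exact K.mul_mem (K.mul_mem (K.mul_mem (K.mul_mem hr hr) (p 4)) hr) hr
  · refine absurd h (nonsol K hx ?_)
    rw [show t = r 4 * x ^ 2 * r 4 * r 4 * x ^ 2 * r 4 by decide +kernel]
    exact K.mul_mem (K.mul_mem (K.mul_mem (K.mul_mem (K.mul_mem hr (p 2)) hr) hr) (p 2)) hr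
  · refine absurd h (nonsol K hx ?_)
    rw [show t = x ^ 3 * r 5 * x ^ 2 * r 5 * x ^ 3 by decide +kernel]
    exact K.mul_mem (K.mul_mem (K.mul_mem (K.mul_mem (p 3) hr) (p 2)) hr) (p 3)
  · refine absurd h (nonsol K hx ?_)
    rw [show t = r 6 * x * r 6 * x * r 6 by decide +kernel]
    exact K.mul_mem (K.mul_mem (K.mul_mem (K.mul_mem hr hx) hr) hx) hr

lemma c1 : ∀ i e j f, ∃ k : Fin 4, (d i e)⁻¹ * (d j f)⁻¹ * d i e * d j f = x ^ (2 * (k : ℕ)) := by
  decide +kernel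
lemma c2 : ∀ (k : Fin 4) j f, ∃ m : Fin 2, (x ^ (2 * (k : ℕ)))⁻¹ * (d j f)⁻¹ * x ^ (2 * (k : ℕ)) *
    d j f = x ^ (4 * (m : ℕ)) := by decide +kernel
lemma c3 : ∀ (m : Fin 2) j f, (x ^ (4 * (m : ℕ)))⁻¹ * (d j f)⁻¹ * x ^ (4 * (m : ℕ)) *
    d j f = 1 := by decide +kernel

lemma comm_one {H : Type*} [Group H] (l : List H) : comm 1 l = 1 := by
  induction l with
  | nil => rfl
  | cons a l ih => simpa [comm] using ih

lemma comm_coe (u : G) (l : List G) : ((comm u l : G) : P) = comm (u : P) (l.map (↑)) := by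
  induction l generalizing u with
  | nil => rfl
  | cons a l ih => exact ih _

theorem result (k : ℕ) (hk : 4 ≤ k) : ∃ (G : Type) (_ : Group G) (_ : Finite G) (x : G),
    (∀ (u : G) (l : List G), (u :: l).length = k →
      (∀ y ∈ u :: l, Group.IsSolvable (Subgroup.closure {x, y})) → comm u l = 1) ∧
    ∃ (u : G) (l : List G), (u :: l).length = k ∧ comm u l ≠ 1 := by
  have hx : x ∈ G := Subgroup.subset_closure (by simp)
  have ht : t ∈ G := Subgroup.subset_closure (by simp)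
  refine ⟨G, inferInstance, inferInstance, ⟨x, hx⟩, fun u l hl h => ?_,
    ⟨x, hx⟩ ^ 4 * ⟨t, ht⟩, List.replicate (k - 1) ⟨t, ht⟩, by simp; omega, ?_⟩
  · have h' : ∀ y ∈ u :: l, ∃ i e, (y : P) = d i e := fun y hy => by
      refine sol y.2 ?_
      have e : (Subgroup.closure {⟨x, hx⟩, y}).map G.subtype = Subgroup.closure {x, y.1} := by
        rw [MonoidHom.map_closure]; simp [Set.image_pair]
      rw [← e]
      exact @Group.isSolvable_of_surjective _ _ _ _ _ (G.subtype.subgroupMap_surjective _) (h y hy)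
    match l, hl, h' with
    | a :: b :: c :: l, _, h' =>
      obtain ⟨i, e, hu⟩ := h' u (by simp)
      obtain ⟨j, f, ha⟩ := h' a (by simp)
      obtain ⟨j', f', hb⟩ := h' b (by simp)
      obtain ⟨j'', f'', hc⟩ := h' c (by simp)
      obtain ⟨k, hk⟩ := c1 i e j f
      obtain ⟨m, hm⟩ := c2 k j' f'
      refine Subtype.ext ?_
      rw [comm_coe]
      simp only [comm, List.map_cons, List.foldl_cons, hu, ha, hb, hc, hk, hm, c3]
      exact comm_one _
    | [], hl, _ | [_], hl, _ | [_, _], hl, _ => simp at hl; omega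
  · intro h
    have h := congrArg Subtype.val h
    rw [comm_coe, List.map_replicate] at h
    have : ∀ n, comm (x ^ 4 * t) (List.replicate n t) = x ^ 4 * t := fun n => by
      induction n with
      | zero => rfl
      | succ n ih =>
        rw [List.replicate_succ, comm, List.foldl_cons,
          show (x ^ 4 * t)⁻¹ * t⁻¹ * (x ^ 4 * t) * t = x ^ 4 * t by decide +kernel]
        exact ih
    exact absurd ((this _).symm.trans h) (by decide +kernel)

end Pool.Agent.Results.MP_7555fa_al.PGL
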